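import Mathlib

/-!
# The volume of a cone over a set in a hyperplane, and areas of linear images
-/

set_option autoImplicit false

open MeasureTheory Set Module
open scoped ENNReal RealInnerProductSpace Pointwise

namespace Pool.Agent.Helper88K9.AS

/-- Euclidean space. -/
abbrev E (n : ℕ) := EuclideanSpace ℝ (Fin n)

/-- The open cone over `F` with apex `0`. -/
def cone {n : ℕ} (F : Set (E n)) : Set (E n) := {y | ∃ t ∈ Ioo (0 : ℝ) 1, ∃ x ∈ F, y = t • x}

variable {n : ℕ} {F : Set (E n)} {v : E n} {c : ℝ}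

theorem mem_cone_iff (hF : ∀ x ∈ F, ⟪v, x⟫ = c) (hc : 0 < c) (y : E n) :
    y ∈ cone F ↔ 0 < ⟪v, y⟫ ∧ ⟪v, y⟫ < c ∧ (c / ⟪v, y⟫) • y ∈ F := by
  constructor
  · rintro ⟨t, ht, x, hx, rfl⟩
    have h1 : ⟪v, t • x⟫ = t * c := by rw [real_inner_smul_right, hF x hx]
    rw [h1]
    refine ⟨mul_pos ht.1 hc, by nlinarith [ht.2], ?_⟩
    have : (c / (t * c)) • t • x = x := by
      rw [smul_smul]
      have : c / (t * c) * t = 1 := by
        have := ht.1.ne'
        have := hc.ne'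
        field_simp
      rw [this, one_smul]
    rw [this]; exact hx
  · rintro ⟨h1, h2, h3⟩
    refine ⟨⟪v, y⟫ / c, ⟨div_pos h1 hc, (div_lt_one hc).2 h2⟩, _, h3, ?_⟩
    rw [smul_smul]
    have : ⟪v, y⟫ / c * (c / ⟪v, y⟫) = 1 := by
      have := h1.ne'
      have := hc.ne'
      field_simp
    rw [this, one_smul]

theorem measurableSet_cone (hFm : MeasurableSet F) (hF : ∀ x ∈ F, ⟪v, x⟫ = c) (hc : 0 < c) :
    MeasurableSet (cone F) := by
  have : cone F = {y | 0 < ⟪v, y⟫} ∩ ({y | ⟪v, y⟫ < c} ∩ (fun y => (c / ⟪v, y⟫) • y) ⁻¹' F) := by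
    ext y
    rw [mem_cone_iff hF hc y]
    rfl
  rw [this]
  have hm : Measurable fun y : E n => ⟪v, y⟫ := by fun_prop
  refine (measurableSet_lt measurable_const hm).inter ((measurableSet_lt hm measurable_const).inter ?_)
  have : Measurable fun y : E n => (c / ⟪v, y⟫) • y := by fun_prop
  exact this hFm

theorem slice_eq (hF : ∀ x ∈ F, ⟪v, x⟫ = c) (hc : 0 < c) (hv : v ≠ 0) (x : ℝ) :
    cone F ∩ (AffineSubspace.mk' (x • v +ᵥ (0 : E n)) (ℝ ∙ v)ᗮ : Set (E n)) =
      if 0 < x ∧ x < c / ‖v‖ ^ 2 then (x * ‖v‖ ^ 2 / c) • F else ∅ := by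
  have hv2 : 0 < ‖v‖ ^ 2 := by positivity
  have hmem : ∀ y : E n, y ∈ (AffineSubspace.mk' (x • v +ᵥ (0 : E n)) (ℝ ∙ v)ᗮ : Set (E n)) ↔
      ⟪v, y⟫ = x * ‖v‖ ^ 2 := by
    intro y
    rw [SetLike.mem_coe, AffineSubspace.mem_mk', Submodule.mem_orthogonal_singleton_iff_inner_right]
    rw [vadd_eq_add, add_zero, vsub_eq_sub, inner_sub_right, real_inner_smul_right,
      real_inner_self_eq_norm_sq, sub_eq_zero]
  ext y
  rw [mem_inter_iff, mem_cone_iff hF hc, hmem]
  split_ifs with h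
  · have h1 : x * ‖v‖ ^ 2 < c := by
      have := h.2
      rwa [lt_div_iff₀ hv2] at this
    have h0 : 0 < x * ‖v‖ ^ 2 := mul_pos h.1 hv2
    rw [mem_smul_set_iff_inv_smul_mem₀ (by positivity)]
    constructor
    · rintro ⟨⟨-, -, h4⟩, h5⟩
      rw [h5] at h4
      rw [inv_div]
      exact h4
    · intro h4
      rw [inv_div] at h4
      have h5 : ⟪v, y⟫ = x * ‖v‖ ^ 2 := by
        have := hF _ h4
        rw [real_inner_smul_right, div_mul_eq_mul_div, div_eq_iff h0.ne'] at this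
        exact mul_left_cancel₀ hc.ne' this
      rw [h5]
      exact ⟨⟨h0, h1, h4⟩, rfl⟩
  · simp only [mem_empty_iff_false, iff_false]
    rintro ⟨⟨h1, h2, -⟩, h3⟩
    apply h
    rw [h3] at h1 h2
    exact ⟨pos_of_mul_pos_left h1 hv2.le, by rwa [lt_div_iff₀ hv2]⟩

theorem lint (a : ℝ) (ha : 0 < a) (hn : 1 ≤ n) :
    ∫⁻ x in Ioo 0 a, ENNReal.ofReal ((x / a) ^ (n - 1)) = ENNReal.ofReal (a / n) := by
  have h1 : ∫ x in Ioo 0 a, (x / a) ^ (n - 1) = a / n := by
    rw [← integral_Ioc_eq_integral_Ioo, ← intervalIntegral.integral_of_le ha.le]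
    rw [intervalIntegral.integral_comp_div (fun x => x ^ (n - 1)) ha.ne']
    rw [integral_pow, zero_div, div_self ha.ne']
    have : n - 1 + 1 = n := by omega
    rw [this]
    have h2 : ((n - 1 : ℕ) : ℝ) + 1 = n := by exact_mod_cast this
    rw [h2, one_pow, zero_pow (by omega), smul_eq_mul]
    ring
  rw [← h1, ofReal_integral_eq_lintegral_ofReal]
  · have : Continuous fun x : ℝ => (x / a) ^ (n - 1) := by fun_prop
    exact (this.integrableOn_Icc).mono_set Ioo_subset_Icc_self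
  · rw [Filter.EventuallyLE, ae_restrict_iff' measurableSet_Ioo]
    filter_upwards with x hx
    have := hx.1
    simp only [Pi.zero_apply]
    positivity

/-- **Volume of a cone.** -/
theorem volume_cone (hn : 1 ≤ n) (hFm : MeasurableSet F) (hF : ∀ x ∈ F, ⟪v, x⟫ = c) (hc : 0 < c)
    (hv : v ≠ 0) :
    volume (cone F) = ENNReal.ofReal (c / (n * ‖v‖)) * μHE[n - 1] F := by
  have hv0 : 0 < ‖v‖ := norm_pos_iff.2 hv
  have hv2 : 0 < ‖v‖ ^ 2 := by positivity
  have key := EuclideanGeometry.euclideanHausdorffMeasure_eq_lintegral (0 : E n) hv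
    (measurableSet_cone hFm hF hc)
  rw [InnerProductSpace.euclideanHausdorffMeasure_eq_volume, finrank_euclideanSpace_fin] at key
  rw [key]
  set a : ℝ := c / ‖v‖ ^ 2 with ha
  have ha0 : 0 < a := by positivity
  have h1 : ∀ x : ℝ, (μHE[n - 1] : Measure (E n))
      (cone F ∩ (AffineSubspace.mk' (x • v +ᵥ (0 : E n)) (ℝ ∙ v)ᗮ : Set (E n))) =
      (Ioo 0 a).indicator (fun x => ENNReal.ofReal ((x / a) ^ (n - 1)) * μHE[n - 1] F) x := by
    intro x
    rw [slice_eq hF hc hv]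
    by_cases hx : x ∈ Ioo 0 a
    · rw [indicator_of_mem hx, if_pos ⟨hx.1, hx.2⟩]
      have hx0 := hx.1
      have hxa : x * ‖v‖ ^ 2 / c = x / a := by rw [ha]; field_simp
      rw [hxa, Measure.euclideanHausdorffMeasure_smul₀ _ (by positivity)]
      rw [ENNReal.smul_def, smul_eq_mul]
      congr 1
      rw [ENNReal.coe_pow, ENNReal.ofReal_pow (by positivity)]
      congr 1
      rw [← enorm_eq_nnnorm, Real.enorm_eq_ofReal (by positivity)]
    · rw [indicator_of_notMem hx, if_neg (fun h => hx ⟨h.1, h.2⟩), measure_empty]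
  simp_rw [h1]
  rw [lintegral_indicator measurableSet_Ioo, lintegral_mul_const _ (by fun_prop), lint a ha0 hn]
  rw [← ofReal_norm, ← mul_assoc, ← ENNReal.ofReal_mul (norm_nonneg _)]
  congr 2
  rw [ha]
  field_simp

theorem image_cone (T : E n →ₗ[ℝ] E n) : T '' cone F = cone (T '' F) := by
  ext y
  constructor
  · rintro ⟨_, ⟨t, ht, x, hx, rfl⟩, rfl⟩
    exact ⟨t, ht, T x, ⟨x, hx, rfl⟩, by rw [map_smul]⟩
  · rintro ⟨t, ht, _, ⟨x, hx, rfl⟩, rfl⟩
    exact ⟨t • x, ⟨t, ht, x, hx, rfl⟩, by rw [map_smul]⟩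

/-- **Area of a linear image** of a subset of a hyperplane. -/
theorem area_image (hn : 1 ≤ n) (hFm : MeasurableSet F) (hF : ∀ x ∈ F, ⟪v, x⟫ = c) (hc : 0 < c)
    (hv : v ≠ 0) (T : E n ≃ₗ[ℝ] E n) :
    μHE[n - 1] (T '' F) = ENNReal.ofReal (|LinearMap.det (T : E n →ₗ[ℝ] E n)| *
      ‖LinearMap.adjoint (T.symm : E n →ₗ[ℝ] E n) v‖ / ‖v‖) * μHE[n - 1] F := by
  set w : E n := LinearMap.adjoint (T.symm : E n →ₗ[ℝ] E n) v with hw
  have hw0 : w ≠ 0 := by
    intro h
    apply hv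
    have h1 : ⟪w, T v⟫ = ⟪v, v⟫ := by
      rw [hw, LinearMap.adjoint_inner_left]
      simp
    rw [h, inner_zero_left] at h1
    exact inner_self_eq_zero.1 h1.symm
  have hw0' : 0 < ‖w‖ := norm_pos_iff.2 hw0
  have hv0 : 0 < ‖v‖ := norm_pos_iff.2 hv
  have hn0 : (0 : ℝ) < n := by exact_mod_cast hn
  have hTF : ∀ y ∈ T '' F, ⟪w, y⟫ = c := by
    rintro _ ⟨x, hx, rfl⟩
    rw [hw, LinearMap.adjoint_inner_left]
    simpa using hF x hx
  have hTm : MeasurableSet (T '' F) :=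
    (T.toContinuousLinearEquiv.toHomeomorph.measurableEmbedding.measurableSet_image).2 hFm
  have h1 := volume_cone hn hTm hTF hc hw0
  have h2 := volume_cone hn hFm hF hc hv
  have h3 : volume (cone (T '' F)) =
      ENNReal.ofReal |LinearMap.det (T : E n →ₗ[ℝ] E n)| * volume (cone F) := by
    have := Measure.addHaar_image_linearMap volume (T : E n →ₗ[ℝ] E n) (cone F)
    rw [image_cone] at this
    exact this
  rw [h1, h2, ← mul_assoc, ← ENNReal.ofReal_mul (abs_nonneg _)] at h3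
  have h4 : ENNReal.ofReal (n * ‖w‖ / c) * ENNReal.ofReal (c / (n * ‖w‖)) = 1 := by
    rw [← ENNReal.ofReal_mul (by positivity)]
    have : n * ‖w‖ / c * (c / (n * ‖w‖)) = 1 := by field_simp
    rw [this, ENNReal.ofReal_one]
  calc μHE[n - 1] (T '' F)
      = ENNReal.ofReal (n * ‖w‖ / c) * (ENNReal.ofReal (c / (n * ‖w‖)) * μHE[n - 1] (T '' F)) := by
        rw [← mul_assoc, h4, one_mul]
    _ = _ := by
        rw [h3, ← mul_assoc, ← ENNReal.ofReal_mul (by positivity)]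
        congr 2
        field_simp

end Pool.Agent.Helper88K9.AS
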