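import Pool.Agent.Helper88K9.AS.Hlawka
import Pool.Agent.Helper88K9.AS.Cone

/-!
# Cross-polytopes and truncated cross-polytopes
-/

set_option autoImplicit false

open MeasureTheory Set Module
open scoped ENNReal RealInnerProductSpace Pointwise

namespace Pool.Agent.Helper88K9.AS

variable {n : ℕ}

/-- The `ℓ¹` norm. -/
noncomputable def N1 (x : E n) : ℝ := ∑ i, |x i|

/-- The cross-polytope of radius `ρ`. -/
def cross (n : ℕ) (ρ : ℝ) : Set (E n) := {x | N1 x ≤ ρ}

/-- The truncated cross-polytope. -/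
def trunc (n : ℕ) (s r : ℝ) : Set (E n) := {x | N1 x ≤ s ∧ ∀ i, |x i| ≤ s - r}

theorem N1_nonneg (x : E n) : 0 ≤ N1 x := Finset.sum_nonneg fun _ _ => abs_nonneg _

theorem N1_smul (t : ℝ) (x : E n) : N1 (t • x) = |t| * N1 x := by
  simp [N1, abs_mul, Finset.mul_sum]

theorem N1_neg (x : E n) : N1 (-x) = N1 x := by simp [N1]

theorem N1_add_le (x y : E n) : N1 (x + y) ≤ N1 x + N1 y := by
  unfold N1
  rw [← Finset.sum_add_distrib]
  exact Finset.sum_le_sum fun i _ => by simpa using abs_add_le (x i) (y i)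

theorem abs_le_N1 (x : E n) (i : Fin n) : |x i| ≤ N1 x :=
  Finset.single_le_sum (f := fun i => |x i|) (fun _ _ => abs_nonneg _) (Finset.mem_univ i)

theorem continuous_N1 : Continuous (N1 : E n → ℝ) := by
  unfold N1
  fun_prop

theorem norm_le_N1 (x : E n) : ‖x‖ ≤ N1 x := by
  rw [EuclideanSpace.norm_eq]
  rw [Real.sqrt_le_left (N1_nonneg x)]
  unfold N1
  simp only [Real.norm_eq_abs]
  exact Finset.sum_sq_le_sq_sum_of_nonneg fun i _ => abs_nonneg _

theorem convex_cross (ρ : ℝ) : Convex ℝ (cross n ρ) := by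
  intro x hx y hy a b ha hb hab
  simp only [cross, mem_ofPred_eq] at *
  calc N1 (a • x + b • y) ≤ N1 (a • x) + N1 (b • y) := N1_add_le _ _
    _ = a * N1 x + b * N1 y := by rw [N1_smul, N1_smul, abs_of_nonneg ha, abs_of_nonneg hb]
    _ ≤ a * ρ + b * ρ := by gcongr
    _ = ρ := by rw [← add_mul, hab, one_mul]

theorem isClosed_cross (ρ : ℝ) : IsClosed (cross n ρ) :=
  isClosed_le continuous_N1 continuous_const

theorem isCompact_cross (ρ : ℝ) : IsCompact (cross n ρ) := by
  refine (isCompact_closedBall (0 : E n) ρ).of_isClosed_subset (isClosed_cross ρ) fun x hx => ?_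
  rw [mem_closedBall_zero_iff]
  exact (norm_le_N1 x).trans hx

theorem trunc_eq (s r : ℝ) : trunc n s r = cross n s ∩ ⋂ i, {x : E n | |x i| ≤ s - r} := by
  ext x
  simp [trunc, cross]

theorem convex_trunc (s r : ℝ) : Convex ℝ (trunc n s r) := by
  rw [trunc_eq]
  refine (convex_cross s).inter (convex_iInter fun i => ?_)
  intro x hx y hy a b ha hb hab
  simp only [mem_ofPred_eq] at *
  calc |(a • x + b • y) i| = |a * x i + b * y i| := by simp
    _ ≤ |a * x i| + |b * y i| := abs_add_le _ _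
    _ = a * |x i| + b * |y i| := by rw [abs_mul, abs_mul, abs_of_nonneg ha, abs_of_nonneg hb]
    _ ≤ a * (s - r) + b * (s - r) := by gcongr
    _ = s - r := by rw [← add_mul, hab, one_mul]

theorem isClosed_trunc (s r : ℝ) : IsClosed (trunc n s r) := by
  rw [trunc_eq]
  refine (isClosed_cross s).inter (isClosed_iInter fun i => isClosed_le ?_ continuous_const)
  fun_prop

theorem isCompact_trunc (s r : ℝ) : IsCompact (trunc n s r) :=
  (isCompact_cross s).of_isClosed_subset (isClosed_trunc s r) fun _ hx => hx.1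

theorem interior_cross_nonempty {ρ : ℝ} (hρ : 0 < ρ) : (interior (cross n ρ)).Nonempty := by
  refine ⟨0, mem_interior.2 ⟨{x | N1 x < ρ}, fun x (hx : N1 x < ρ) => (le_of_lt hx : N1 x ≤ ρ),
    isOpen_lt continuous_N1 continuous_const, ?_⟩⟩
  simpa [N1] using hρ

theorem open_sub_trunc (s r : ℝ) :
    ({x | N1 x < s} ∩ ⋂ i, {x : E n | |x i| < s - r}) ⊆ interior (trunc n s r) := by
  refine interior_maximal ?_ ?_
  · rintro x ⟨h1, h2⟩
    rw [mem_iInter] at h2
    exact ⟨le_of_lt h1, fun i => le_of_lt (h2 i)⟩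
  · refine (isOpen_lt continuous_N1 continuous_const).inter (isOpen_iInter_of_finite fun i => ?_)
    exact isOpen_lt (by fun_prop) continuous_const

theorem interior_trunc_nonempty {s r : ℝ} (hs : 0 < s) (hr : r < s) :
    (interior (trunc n s r)).Nonempty := by
  refine ⟨0, open_sub_trunc s r ⟨?_, ?_⟩⟩
  · simpa [N1] using hs
  · simpa using fun _ => hr

/-- The points of the sphere of `N1` are in the frontier. -/
theorem mem_frontier_cross {ρ : ℝ} (hρ : 0 < ρ) {x : E n} (hx : N1 x = ρ) :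
    x ∈ frontier (cross n ρ) := by
  rw [frontier, (isClosed_cross ρ).closure_eq]
  refine ⟨hx.le, fun hint => ?_⟩
  rw [mem_interior_iff_mem_nhds] at hint
  have hc : Filter.Tendsto (fun t : ℝ => t • x) (nhds 1) (nhds x) := by
    have : Continuous fun t : ℝ => t • x := by fun_prop
    simpa using this.tendsto 1
  have hev := hc.eventually hint
  rw [Metric.eventually_nhds_iff] at hev
  obtain ⟨e, he, h⟩ := hev
  have h1 := @h (1 + e / 2) (by rw [Real.dist_eq]; rw [abs_of_pos (by linarith)]; linarith)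
  change N1 ((1 + e / 2) • x) ≤ ρ at h1
  rw [N1_smul, hx, abs_of_pos (by positivity)] at h1
  nlinarith

/-- The normal vector of a sign pattern. -/
noncomputable def nv (ε : Fin n → ℤˣ) : E n := WithLp.toLp 2 fun i => sg (ε i)

@[simp] theorem nv_apply (ε : Fin n → ℤˣ) (i : Fin n) : nv ε i = sg (ε i) := rfl

theorem inner_nv (ε : Fin n → ℤˣ) (x : E n) : ⟪nv ε, x⟫ = ∑ i, sg (ε i) * x i := by
  simp [PiLp.inner_apply, mul_comm]

theorem norm_nv (ε : Fin n → ℤˣ) : ‖nv ε‖ = √n := by
  rw [EuclideanSpace.norm_eq]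
  congr 1
  simp [abs_sg]

theorem nv_ne_zero (hn : 1 ≤ n) (ε : Fin n → ℤˣ) : nv ε ≠ 0 := by
  intro h
  have : nv ε ⟨0, hn⟩ = 0 := by rw [h]; rfl
  rw [nv_apply] at this
  rcases sg_eq (ε ⟨0, hn⟩) with h1 | h1 <;> rw [h1] at this <;> norm_num at this

/-- The reflection by a sign pattern. -/
noncomputable def rf (ε : Fin n → ℤˣ) : E n ≃ₗᵢ[ℝ] E n :=
  LinearIsometryEquiv.piLpCongrRight 2 fun i =>
    if ε i = 1 then LinearIsometryEquiv.refl ℝ ℝ else LinearIsometryEquiv.neg ℝ

@[simp] theorem rf_apply (ε : Fin n → ℤˣ) (x : E n) (i : Fin n) : rf ε x i = sg (ε i) * x i := by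
  rw [rf, LinearIsometryEquiv.piLpCongrRight_apply]
  rcases Int.units_eq_one_or (ε i) with h | h
  · simp [h]
  · simp [h]

/-- The open orthant piece of a sign pattern. -/
def O (ε : Fin n → ℤˣ) : Set (E n) := {x | (∀ i, 0 < sg (ε i) * x i) ∧ ∑ i, sg (ε i) * x i < 1}

/-- The open facet. -/
def Fo (ε : Fin n → ℤˣ) : Set (E n) := {x | (∀ i, 0 < sg (ε i) * x i) ∧ ∑ i, sg (ε i) * x i = 1}

/-- The closed facet. -/
def Fc (ε : Fin n → ℤˣ) : Set (E n) := {x | (∀ i, 0 ≤ sg (ε i) * x i) ∧ ∑ i, sg (ε i) * x i = 1}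

theorem meas_coord (ε : Fin n → ℤˣ) (i : Fin n) : Measurable fun x : E n => sg (ε i) * x i := by
  fun_prop

theorem meas_sum (ε : Fin n → ℤˣ) : Measurable fun x : E n => ∑ i, sg (ε i) * x i := by
  fun_prop

theorem measurableSet_O (ε : Fin n → ℤˣ) : MeasurableSet (O ε) := by
  have : O ε = (⋂ i, {x : E n | 0 < sg (ε i) * x i}) ∩ {x | ∑ i, sg (ε i) * x i < 1} := by
    ext x; simp [O]
  rw [this]
  exact (MeasurableSet.iInter fun i => measurableSet_lt measurable_const (meas_coord ε i)).inter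
    (measurableSet_lt (meas_sum ε) measurable_const)

theorem measurableSet_Fo (ε : Fin n → ℤˣ) : MeasurableSet (Fo ε) := by
  have : Fo ε = (⋂ i, {x : E n | 0 < sg (ε i) * x i}) ∩ {x | ∑ i, sg (ε i) * x i = 1} := by
    ext x; simp [Fo]
  rw [this]
  exact (MeasurableSet.iInter fun i => measurableSet_lt measurable_const (meas_coord ε i)).inter
    (measurableSet_eq_fun (meas_sum ε) measurable_const)

theorem measurableSet_Fc (ε : Fin n → ℤˣ) : MeasurableSet (Fc ε) := by
  have : Fc ε = (⋂ i, {x : E n | 0 ≤ sg (ε i) * x i}) ∩ {x | ∑ i, sg (ε i) * x i = 1} := by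
    ext x; simp [Fc]
  rw [this]
  exact (MeasurableSet.iInter fun i => measurableSet_le measurable_const (meas_coord ε i)).inter
    (measurableSet_eq_fun (meas_sum ε) measurable_const)

theorem Fo_inner (ε : Fin n → ℤˣ) : ∀ x ∈ Fo ε, ⟪nv ε, x⟫ = 1 := fun x hx => by
  rw [inner_nv]; exact hx.2

theorem Fc_inner (ε : Fin n → ℤˣ) : ∀ x ∈ Fc ε, ⟪nv ε, x⟫ = 1 := fun x hx => by
  rw [inner_nv]; exact hx.2

theorem abs_eq_sg_mul (u : ℤˣ) {y : ℝ} (h : 0 ≤ sg u * y) : |y| = sg u * y := by
  rw [← abs_of_nonneg h, abs_mul, abs_sg, one_mul]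

theorem exists_sign (x : E n) : ∃ ε : Fin n → ℤˣ, ∀ i, sg (ε i) * x i = |x i| := by
  refine ⟨fun i => if 0 ≤ x i then 1 else -1, fun i => ?_⟩
  by_cases h : 0 ≤ x i
  · simp [h, abs_of_nonneg h]
  · simp [h, abs_of_neg (not_le.1 h)]

theorem le_abs_sg (u : ℤˣ) (y : ℝ) : sg u * y ≤ |y| := by
  rcases sg_eq u with h | h <;> rw [h]
  · rw [one_mul]; exact le_abs_self y
  · rw [neg_one_mul]; exact neg_le_abs y

theorem cone_Fo (hn : 1 ≤ n) (ε : Fin n → ℤˣ) : cone (Fo ε) = O ε := by
  have : Nonempty (Fin n) := ⟨⟨0, hn⟩⟩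
  ext y
  rw [mem_cone_iff (Fo_inner ε) one_pos, inner_nv]
  constructor
  · rintro ⟨h1, h2, h3, h4⟩
    refine ⟨fun i => ?_, h2⟩
    have := h3 i
    simp only [PiLp.smul_apply, smul_eq_mul] at this
    have h5 : sg (ε i) * (1 / (∑ i, sg (ε i) * y i) * y i) =
      (sg (ε i) * y i) / (∑ i, sg (ε i) * y i) := by ring
    rw [h5] at this
    exact (div_pos_iff_of_pos_right h1).1 this
  · rintro ⟨h1, h2⟩
    have h0 : 0 < ∑ i, sg (ε i) * y i := Finset.sum_pos (fun i _ => h1 i) Finset.univ_nonempty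
    refine ⟨h0, h2, fun i => ?_, ?_⟩
    · simp only [PiLp.smul_apply, smul_eq_mul]
      have h5 : sg (ε i) * (1 / (∑ i, sg (ε i) * y i) * y i) =
        (sg (ε i) * y i) / (∑ i, sg (ε i) * y i) := by ring
      rw [h5]
      exact div_pos (h1 i) h0
    · simp only [PiLp.smul_apply, smul_eq_mul]
      have h5 : ∀ i, sg (ε i) * (1 / (∑ i, sg (ε i) * y i) * y i) =
        (sg (ε i) * y i) / (∑ i, sg (ε i) * y i) := fun i => by ring
      simp_rw [h5]
      rw [← Finset.sum_div, div_self h0.ne']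

/-- The volume of the standard simplex. -/
noncomputable def om (n : ℕ) : ℝ≥0∞ := volume (O (1 : Fin n → ℤˣ))

theorem volume_O (ε : Fin n → ℤˣ) : volume (O ε) = om n := by
  have h : O ε = rf ε ⁻¹' O 1 := by
    ext x
    simp [O]
  rw [h, om]
  exact (rf ε).measurePreserving.measure_preimage (measurableSet_O _).nullMeasurableSet

theorem volume_coord (i : Fin n) : volume {x : E n | x i = 0} = 0 := by
  have h := Measure.addHaar_submodule (volume : Measure (E n))
    (LinearMap.ker (EuclideanSpace.proj i : E n →L[ℝ] ℝ).toLinearMap) (by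
      intro h
      have : EuclideanSpace.single i (1 : ℝ) ∈
          LinearMap.ker (EuclideanSpace.proj i : E n →L[ℝ] ℝ).toLinearMap := by
        rw [h]; trivial
      simp at this)
  convert h using 2
  ext x
  simp

theorem volume_coords : volume (⋃ i : Fin n, {x : E n | x i = 0}) = 0 :=
  measure_iUnion_null fun i => volume_coord i

theorem volume_cross_le (n : ℕ) : volume (cross n 1) ≤ 2 ^ n * om n := by
  have h1 : cross n 1 ⊆ (⋃ ε : Fin n → ℤˣ, O ε) ∪ ((⋃ i : Fin n, {x : E n | x i = 0}) ∪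
      frontier (cross n 1)) := by
    intro x hx
    by_cases h0 : ∃ i, x i = 0
    · right; left
      simpa using h0
    by_cases h1 : N1 x = 1
    · right; right
      exact mem_frontier_cross one_pos h1
    left
    push Not at h0
    obtain ⟨ε, hε⟩ := exists_sign x
    rw [mem_iUnion]
    refine ⟨ε, fun i => ?_, ?_⟩
    · rw [hε i]; exact abs_pos.2 (h0 i)
    · simp_rw [hε]
      exact lt_of_le_of_ne hx h1
  refine (measure_mono h1).trans ((measure_union_le _ _).trans ?_)
  have h2 : volume ((⋃ i : Fin n, {x : E n | x i = 0}) ∪ frontier (cross n 1)) = 0 :=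
    measure_union_null volume_coords ((convex_cross 1).addHaar_frontier volume)
  rw [h2, add_zero]
  refine (measure_iUnion_fintype_le _ _).trans ?_
  simp_rw [volume_O]
  rw [Finset.sum_const, Finset.card_univ, Fintype.card_pi]
  simp [nsmul_eq_mul]

theorem om_lt_top (n : ℕ) : om n < ∞ := by
  refine lt_of_le_of_lt (measure_mono ?_) ((isCompact_cross (n := n) 1).measure_lt_top)
  rintro x ⟨h1, h2⟩
  change N1 x ≤ 1
  unfold N1
  refine le_trans (le_of_eq ?_) h2.le
  exact Finset.sum_congr rfl fun i _ => abs_eq_sg_mul _ (h1 i).le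

theorem volume_cross_pos (n : ℕ) : 0 < volume (cross n 1) :=
  Measure.measure_pos_of_nonempty_interior _ (interior_cross_nonempty one_pos)

theorem om_pos (n : ℕ) : 0 < om n := by
  by_contra h
  have h0 : om n = 0 := by simpa using h
  have := volume_cross_le n
  rw [h0, mul_zero] at this
  exact absurd (volume_cross_pos n) (not_lt.2 this)

end Pool.Agent.Helper88K9.AS
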