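import Pool.Agent.Helper88K9.AS.Bodies

/-!
# Areas of the facets
-/

set_option autoImplicit false

open MeasureTheory Set Module
open scoped ENNReal RealInnerProductSpace Pointwise

namespace Pool.Agent.Helper88K9.AS

variable {n : ℕ}

/-- The area of a facet of the cross-polytope. -/
noncomputable def al (n : ℕ) : ℝ≥0∞ := ENNReal.ofReal (n * √n) * om n

theorem inv_const (hn : 1 ≤ n) :
    ENNReal.ofReal (n * √n) * ENNReal.ofReal (1 / (n * √n)) = 1 := by
  have : (0 : ℝ) < n := by exact_mod_cast hn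
  rw [← ENNReal.ofReal_mul (by positivity), mul_one_div_cancel (by positivity), ENNReal.ofReal_one]

theorem area_Fo (hn : 1 ≤ n) (ε : Fin n → ℤˣ) : μHE[n - 1] (Fo ε) = al n := by
  have h := volume_cone hn (measurableSet_Fo ε) (Fo_inner ε) one_pos (nv_ne_zero hn ε)
  rw [cone_Fo hn, volume_O, norm_nv] at h
  rw [al, h, ← mul_assoc, inv_const hn, one_mul]

theorem cone_Fc (ε : Fin n → ℤˣ) :
    cone (Fc ε) ⊆ O ε ∪ ⋃ i : Fin n, {x : E n | x i = 0} := by
  intro y hy
  rw [mem_cone_iff (Fc_inner ε) one_pos, inner_nv] at hy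
  obtain ⟨h1, h2, h3, h4⟩ := hy
  have h5 : ∀ i, 0 ≤ sg (ε i) * y i := by
    intro i
    have := h3 i
    simp only [PiLp.smul_apply, smul_eq_mul] at this
    have h5 : sg (ε i) * (1 / (∑ i, sg (ε i) * y i) * y i) =
      (sg (ε i) * y i) / (∑ i, sg (ε i) * y i) := by ring
    rw [h5] at this
    by_contra hc
    push Not at hc
    exact absurd this (not_le.2 (div_neg_of_neg_of_pos hc h1))
  by_cases h0 : ∃ i, y i = 0
  · right
    simpa using h0
  · left
    push Not at h0
    refine ⟨fun i => lt_of_le_of_ne (h5 i) ?_, h2⟩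
    rcases sg_eq (ε i) with h | h <;> rw [h] <;> simp [Ne.symm (h0 i), (h0 i)]

theorem area_Fc_le (hn : 1 ≤ n) (ε : Fin n → ℤˣ) : μHE[n - 1] (Fc ε) ≤ al n := by
  have h := volume_cone hn (measurableSet_Fc ε) (Fc_inner ε) one_pos (nv_ne_zero hn ε)
  rw [norm_nv] at h
  have h1 : volume (cone (Fc ε)) ≤ om n := by
    refine (measure_mono (cone_Fc ε)).trans ((measure_union_le _ _).trans ?_)
    rw [volume_coords, add_zero, volume_O]
  calc μHE[n - 1] (Fc ε) = ENNReal.ofReal (n * √n) * (ENNReal.ofReal (1 / (n * √n)) *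
        μHE[n - 1] (Fc ε)) := by rw [← mul_assoc, inv_const hn, one_mul]
    _ ≤ _ := by
      rw [← h, al]
      gcongr

/-- The big facets of the truncated cross-polytope. -/
def G (s r : ℝ) (ε : Fin n → ℤˣ) : Set (E n) :=
  {x | (∀ i, 0 ≤ sg (ε i) * x i ∧ sg (ε i) * x i ≤ s - r) ∧ ∑ i, sg (ε i) * x i = s}

/-- The pieces cut off from the facets. -/
def P (s r : ℝ) (ε : Fin n → ℤˣ) (i : Fin n) : Set (E n) :=
  {x | (∀ j, 0 < sg (ε j) * x j) ∧ s - r < sg (ε i) * x i ∧ ∑ i, sg (ε i) * x i = s}

theorem measurableSet_G (s r : ℝ) (ε : Fin n → ℤˣ) : MeasurableSet (G s r ε) := by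
  have : G s r ε = (⋂ i, ({x : E n | 0 ≤ sg (ε i) * x i} ∩ {x | sg (ε i) * x i ≤ s - r})) ∩
      {x | ∑ i, sg (ε i) * x i = s} := by
    ext x; simp [G]
  rw [this]
  exact (MeasurableSet.iInter fun i => (measurableSet_le measurable_const (meas_coord ε i)).inter
    (measurableSet_le (meas_coord ε i) measurable_const)).inter
    (measurableSet_eq_fun (meas_sum ε) measurable_const)

theorem measurableSet_P (s r : ℝ) (ε : Fin n → ℤˣ) (i : Fin n) : MeasurableSet (P s r ε i) := by
  have : P s r ε i = (⋂ i, {x : E n | 0 < sg (ε i) * x i}) ∩ ({x | s - r < sg (ε i) * x i} ∩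
      {x | ∑ i, sg (ε i) * x i = s}) := by
    ext x; simp [P]
  rw [this]
  exact (MeasurableSet.iInter fun i => measurableSet_lt measurable_const (meas_coord ε i)).inter
    ((measurableSet_lt measurable_const (meas_coord ε i)).inter
    (measurableSet_eq_fun (meas_sum ε) measurable_const))

theorem area_smul (d : ℕ) {r : ℝ} (hr : 0 < r) (S : Set (E n)) :
    μHE[d] (r • S) = ENNReal.ofReal (r ^ d) * μHE[d] S := by
  rw [Measure.euclideanHausdorffMeasure_smul₀ _ hr.ne', ENNReal.smul_def, smul_eq_mul]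
  congr 1
  rw [ENNReal.coe_pow, ENNReal.ofReal_pow hr.le]
  congr 1
  rw [← enorm_eq_nnnorm, Real.enorm_eq_ofReal hr.le]

theorem area_P_ge (hn : 1 ≤ n) {s r : ℝ} (hr : 0 < r) (hs : r < s) (ε : Fin n → ℤˣ) (i : Fin n) :
    ENNReal.ofReal (r ^ (n - 1)) * al n ≤ μHE[n - 1] (P s r ε i) := by
  rw [← area_Fo hn ε, ← area_smul _ hr]
  rw [← measure_vadd (μHE[n - 1] : Measure (E n)) (EuclideanSpace.single i ((s - r) * sg (ε i)))
    (r • Fo ε)]
  apply measure_mono
  intro x hx
  obtain ⟨_, ⟨y, hy, rfl⟩, rfl⟩ := hx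
  obtain ⟨h1, h2⟩ := hy
  have key : ∀ j, sg (ε j) * (EuclideanSpace.single i ((s - r) * sg (ε i)) +ᵥ r • y) j =
      (if j = i then s - r else 0) + r * (sg (ε j) * y j) := by
    intro j
    rw [vadd_eq_add, PiLp.add_apply, PiLp.smul_apply, smul_eq_mul, PiLp.single_apply]
    split_ifs with h
    · subst h
      have := sg_mul_self (ε j)
      linear_combination (s - r) * this
    · ring
  refine ⟨fun j => ?_, ?_, ?_⟩
  · rw [key]
    have := h1 j
    split_ifs
    · have : 0 < s - r := by linarith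
      positivity
    · positivity
  · rw [key, if_pos rfl]
    have := h1 i
    have : 0 < r * (sg (ε i) * y i) := by positivity
    linarith
  · simp_rw [key]
    rw [Finset.sum_add_distrib, ← Finset.mul_sum, h2, Finset.sum_ite_eq' Finset.univ i]
    simp

theorem area_G (hn : 1 ≤ n) {s r : ℝ} (hr : 0 < r) (hs : 2 * r ≤ s) (ε : Fin n → ℤˣ) :
    μHE[n - 1] (G s r ε) + n * (ENNReal.ofReal (r ^ (n - 1)) * al n) ≤
      ENNReal.ofReal (s ^ (n - 1)) * al n := by
  have hs0 : 0 < s := by linarith
  have h1 : G s r ε ∪ ⋃ i, P s r ε i ⊆ s • Fc ε := by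
    have hx : ∀ x : E n, (∀ i, 0 ≤ sg (ε i) * x i) → ∑ i, sg (ε i) * x i = s → x ∈ s • Fc ε := by
      intro x h1 h2
      rw [mem_smul_set_iff_inv_smul_mem₀ hs0.ne']
      have key : ∀ i, sg (ε i) * (s⁻¹ • x) i = s⁻¹ * (sg (ε i) * x i) := by
        intro i
        simp only [PiLp.smul_apply, smul_eq_mul]
        ring
      refine ⟨fun i => ?_, ?_⟩
      · rw [key]
        have := h1 i
        positivity
      · simp_rw [key]
        rw [← Finset.mul_sum, h2, inv_mul_cancel₀ hs0.ne']
    rintro x (hx1 | hx1)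
    · exact hx x (fun i => (hx1.1 i).1) hx1.2
    · rw [mem_iUnion] at hx1
      obtain ⟨i, h2, h3, h4⟩ := hx1
      exact hx x (fun i => (h2 i).le) h4
  have hdisj : Disjoint (G s r ε) (⋃ i, P s r ε i) := by
    rw [Set.disjoint_left]
    intro x hx1 hx2
    rw [mem_iUnion] at hx2
    obtain ⟨i, h2, h3, h4⟩ := hx2
    exact absurd (hx1.1 i).2 (not_le.2 h3)
  have hpd : Pairwise (Function.onFun Disjoint (P s r ε)) := by
    intro i j hij
    rw [Function.onFun, Set.disjoint_left]
    rintro x ⟨h1, h2, h3⟩ ⟨-, h4, -⟩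
    have h5 : ∑ l ∈ ({i, j} : Finset (Fin n)), sg (ε l) * x l ≤ ∑ l, sg (ε l) * x l :=
      Finset.sum_le_sum_of_subset_of_nonneg (Finset.subset_univ _) fun l _ _ => (h1 l).le
    rw [Finset.sum_pair hij, h3] at h5
    linarith
  have h2 := measure_mono (μ := (μHE[n - 1] : Measure (E n))) h1
  rw [measure_union hdisj (MeasurableSet.iUnion fun i => measurableSet_P s r ε i),
    measure_iUnion hpd (fun i => measurableSet_P s r ε i), tsum_fintype, area_smul _ hs0] at h2
  refine le_trans ?_ (h2.trans ?_)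
  · gcongr
    calc (n : ℝ≥0∞) * (ENNReal.ofReal (r ^ (n - 1)) * al n)
        = ∑ _i : Fin n, (ENNReal.ofReal (r ^ (n - 1)) * al n) := by
          rw [Finset.sum_const, Finset.card_univ, Fintype.card_fin, nsmul_eq_mul]
      _ ≤ _ := Finset.sum_le_sum fun i _ => area_P_ge hn hr (by linarith) ε i
  · gcongr
    exact area_Fc_le hn ε

/-- One half of the cross-polytope. -/
def half (i : Fin n) : Set (E n) := {y | 0 < y i ∧ N1 y ≤ 1}

theorem measurableSet_half (i : Fin n) : MeasurableSet (half i) := by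
  have : half i = {y : E n | 0 < y i} ∩ cross n 1 := by ext x; simp [half, cross]
  rw [this]
  exact (measurableSet_lt measurable_const (by fun_prop)).inter (isClosed_cross 1).measurableSet

theorem volume_half (i : Fin n) : 2 * volume (half i) ≤ volume (cross n 1) := by
  have h1 : volume ((LinearIsometryEquiv.neg ℝ : E n ≃ₗᵢ[ℝ] E n) ⁻¹' half i) = volume (half i) :=
    (LinearIsometryEquiv.neg ℝ : E n ≃ₗᵢ[ℝ] E n).measurePreserving.measure_preimage
      (measurableSet_half i).nullMeasurableSet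
  rw [two_mul]
  nth_rw 2 [← h1]
  rw [← measure_union]
  · apply measure_mono
    rintro x (hx | hx)
    · exact hx.2
    · have := hx.2
      simpa [cross, N1_neg] using this
  · rw [Set.disjoint_left]
    rintro x ⟨h1, -⟩ ⟨h2, -⟩
    simp at h2
    linarith
  · exact (LinearIsometryEquiv.neg ℝ : E n ≃ₗᵢ[ℝ] E n).continuous.measurable (measurableSet_half i)

/-- A facet like those obtained by truncation. -/
def D (i : Fin n) : Set (E n) := {x | x i = 1 ∧ N1 x ≤ 2}

theorem measurableSet_D (i : Fin n) : MeasurableSet (D i) := by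
  have : D i = {y : E n | y i = 1} ∩ cross n 2 := by ext x; simp [D, cross]
  rw [this]
  exact (measurableSet_eq_fun (by fun_prop) measurable_const).inter (isClosed_cross 2).measurableSet

theorem inner_single' (i : Fin n) (x : E n) : ⟪EuclideanSpace.single i (1 : ℝ), x⟫ = x i := by
  rw [EuclideanSpace.inner_single_left]
  simp

theorem volume_cone_D (i : Fin n) : volume (cone (D i)) ≤ volume (half i) := by
  set φ : E n → E n := fun y => EuclideanSpace.single i (1 : ℝ) + rf (fl i) y with hφ
  have hmp : MeasurePreserving φ (volume : Measure (E n)) volume :=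
    (measurePreserving_add_left volume (EuclideanSpace.single i (1 : ℝ))).comp
      (rf (fl i)).measurePreserving
  rw [← hmp.measure_preimage (measurableSet_half i).nullMeasurableSet]
  apply measure_mono
  rintro _ ⟨t, ht, x, hx, rfl⟩
  have hval : ∀ j, φ (t • x) j = if j = i then 1 - t else t * x j := by
    intro j
    rw [hφ]
    simp only [PiLp.add_apply, rf_apply, PiLp.smul_apply, smul_eq_mul, PiLp.single_apply, fl]
    split_ifs with h
    · subst h
      rw [hx.1]
      simp
      ring
    · simp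
  refine ⟨?_, ?_⟩
  · rw [hval, if_pos rfl]
    linarith [ht.2]
  · have h2 := hx.2
    have h3 : N1 (φ (t • x)) = (1 - t) + t * (N1 x - 1) := by
      unfold N1
      rw [← Finset.add_sum_erase _ _ (Finset.mem_univ i),
        ← Finset.add_sum_erase Finset.univ (fun j => |x j|) (Finset.mem_univ i)]
      rw [hval, if_pos rfl, hx.1, abs_one, abs_of_pos (by linarith [ht.2])]
      have : ∑ j ∈ Finset.univ.erase i, |φ (t • x) j| =
          t * ∑ j ∈ Finset.univ.erase i, |x j| := by
        rw [Finset.mul_sum]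
        refine Finset.sum_congr rfl fun j hj => ?_
        rw [hval, if_neg (Finset.ne_of_mem_erase hj), abs_mul, abs_of_pos ht.1]
      rw [this]
      ring
    rw [h3]
    nlinarith [ht.1]

theorem area_D_le (hn : 1 ≤ n) (i : Fin n) :
    2 * μHE[n - 1] (D i) ≤ ENNReal.ofReal n * (2 ^ n * om n) := by
  have hv : (EuclideanSpace.single i (1 : ℝ) : E n) ≠ 0 := by
    intro h
    have := congrArg norm h
    simp at this
  have h := volume_cone (F := D i) (v := EuclideanSpace.single i (1 : ℝ)) (c := 1) hn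
    (measurableSet_D i) (fun x hx => by rw [inner_single']; exact hx.1) one_pos hv
  rw [PiLp.norm_single, norm_one, mul_one] at h
  have hn0 : (0 : ℝ) < n := by exact_mod_cast hn
  have h1 : μHE[n - 1] (D i) = ENNReal.ofReal n * volume (cone (D i)) := by
    rw [h, ← mul_assoc, ← ENNReal.ofReal_mul hn0.le, mul_one_div_cancel hn0.ne',
      ENNReal.ofReal_one, one_mul]
  calc 2 * μHE[n - 1] (D i) = ENNReal.ofReal n * (2 * volume (cone (D i))) := by rw [h1]; ring
    _ ≤ ENNReal.ofReal n * (2 * volume (half i)) :=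
      mul_le_mul' le_rfl (mul_le_mul' le_rfl (volume_cone_D i))
    _ ≤ ENNReal.ofReal n * volume (cross n 1) := mul_le_mul' le_rfl (volume_half i)
    _ ≤ _ := mul_le_mul' le_rfl (volume_cross_le n)

/-- The small facets of the truncated cross-polytope. -/
def H (s r : ℝ) (i : Fin n) : Set (E n) := {x | x i = s - r ∧ N1 x ≤ s}

theorem measurableSet_H (s r : ℝ) (i : Fin n) : MeasurableSet (H s r i) := by
  have : H s r i = {y : E n | y i = s - r} ∩ cross n s := by ext x; simp [H, cross]
  rw [this]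
  exact (measurableSet_eq_fun (by fun_prop) measurable_const).inter (isClosed_cross s).measurableSet

theorem area_H_le (hn : 1 ≤ n) {s r : ℝ} (hr : 0 < r) (hs : 2 * r ≤ s) (i : Fin n) :
    2 * μHE[n - 1] (H s r i) ≤
      ENNReal.ofReal (r ^ (n - 1)) * (ENNReal.ofReal n * (2 ^ n * om n)) := by
  have h1 : μHE[n - 1] (H s r i) ≤ ENNReal.ofReal (r ^ (n - 1)) * μHE[n - 1] (D i) := by
    rw [← area_smul _ hr]
    rw [← measure_vadd (μHE[n - 1] : Measure (E n)) (EuclideanSpace.single i (s - 2 * r))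
      (r • D i)]
    apply measure_mono
    intro x hx
    rw [mem_vadd_set]
    set y : E n := r⁻¹ • (x - EuclideanSpace.single i (s - 2 * r)) with hy
    have hval : ∀ j, y j = if j = i then 1 else r⁻¹ * x j := by
      intro j
      rw [hy]
      simp only [PiLp.smul_apply, PiLp.sub_apply, smul_eq_mul, PiLp.single_apply]
      split_ifs with h
      · subst h
        rw [hx.1]
        field_simp
        ring
      · ring
    refine ⟨r • y, smul_mem_smul_set ⟨?_, ?_⟩, ?_⟩
    · rw [hval, if_pos rfl]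
    · have h3 : N1 y = 1 + r⁻¹ * (N1 x - (s - r)) := by
        unfold N1
        rw [← Finset.add_sum_erase _ _ (Finset.mem_univ i),
          ← Finset.add_sum_erase Finset.univ (fun j => |x j|) (Finset.mem_univ i)]
        rw [hval, if_pos rfl, hx.1, abs_one, abs_of_nonneg (by linarith : 0 ≤ s - r)]
        have : ∑ j ∈ Finset.univ.erase i, |y j| = r⁻¹ * ∑ j ∈ Finset.univ.erase i, |x j| := by
          rw [Finset.mul_sum]
          refine Finset.sum_congr rfl fun j hj => ?_
          rw [hval, if_neg (Finset.ne_of_mem_erase hj), abs_mul, abs_of_pos (by positivity)]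
        rw [this]
        ring
      rw [h3]
      have h4 := hx.2
      have : r⁻¹ * (N1 x - (s - r)) ≤ r⁻¹ * r := by
        gcongr
        linarith
      rw [inv_mul_cancel₀ hr.ne'] at this
      linarith
    · rw [hy, smul_smul, mul_inv_cancel₀ hr.ne', one_smul, vadd_eq_add]
      abel
  calc 2 * μHE[n - 1] (H s r i) ≤ 2 * (ENNReal.ofReal (r ^ (n - 1)) * μHE[n - 1] (D i)) := by
        gcongr
    _ = ENNReal.ofReal (r ^ (n - 1)) * (2 * μHE[n - 1] (D i)) := by ring
    _ ≤ _ := mul_le_mul' le_rfl (area_D_le hn i)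

end Pool.Agent.Helper88K9.AS
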