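import Mathlib

/-!
# Hlawka's inequality and sums over signs
-/

set_option autoImplicit false

namespace Pool.Agent.Helper88K9.AS

variable {V : Type*} [NormedAddCommGroup V] [InnerProductSpace ℝ V]

/-- Hlawka's inequality. -/
theorem hlawka (a b c : V) :
    ‖a + b‖ + ‖b + c‖ + ‖c + a‖ ≤ ‖a‖ + ‖b‖ + ‖c‖ + ‖a + b + c‖ := by
  have h1 : ‖b + c‖ ≤ ‖b‖ + ‖c‖ := norm_add_le _ _
  have h2 : ‖c + a‖ ≤ ‖c‖ + ‖a‖ := norm_add_le _ _
  have h3 : ‖a + b‖ ≤ ‖a‖ + ‖b‖ := norm_add_le _ _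
  have h4 : ‖b + c‖ ≤ ‖a‖ + ‖a + b + c‖ := by
    have : b + c = (a + b + c) - a := by abel
    calc ‖b + c‖ = ‖(a + b + c) - a‖ := by rw [← this]
      _ ≤ ‖a + b + c‖ + ‖a‖ := norm_sub_le _ _
      _ = _ := by rw [add_comm]
  have h5 : ‖c + a‖ ≤ ‖b‖ + ‖a + b + c‖ := by
    have : c + a = (a + b + c) - b := by abel
    calc ‖c + a‖ = ‖(a + b + c) - b‖ := by rw [← this]
      _ ≤ ‖a + b + c‖ + ‖b‖ := norm_sub_le _ _
      _ = _ := by rw [add_comm]
  have h6 : ‖a + b‖ ≤ ‖c‖ + ‖a + b + c‖ := by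
    have : a + b = (a + b + c) - c := by abel
    calc ‖a + b‖ = ‖(a + b + c) - c‖ := by rw [← this]
      _ ≤ ‖a + b + c‖ + ‖c‖ := norm_sub_le _ _
      _ = _ := by rw [add_comm]
  have key : ‖a‖ ^ 2 + ‖b‖ ^ 2 + ‖c‖ ^ 2 + ‖a + b + c‖ ^ 2 =
      ‖a + b‖ ^ 2 + ‖b + c‖ ^ 2 + ‖c + a‖ ^ 2 := by
    have e1 := norm_add_sq_real (a + b) c
    have e2 := norm_add_sq_real a b
    have e3 := norm_add_sq_real b c
    have e4 := norm_add_sq_real c a
    rw [inner_add_left] at e1
    rw [real_inner_comm] at e4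
    linarith
  have n0 := norm_nonneg a
  have n1 := norm_nonneg b
  have n2 := norm_nonneg c
  have n3 := norm_nonneg (a + b + c)
  generalize ‖a‖ = A at *
  generalize ‖b‖ = B at *
  generalize ‖c‖ = C at *
  generalize ‖a + b + c‖ = D at *
  generalize ‖b + c‖ = X at *
  generalize ‖c + a‖ = Y at *
  generalize ‖a + b‖ = Z at *
  by_contra hcon
  push Not at hcon
  have hS : 0 < A + B + C + D := by
    rcases (add_nonneg (add_nonneg (add_nonneg n0 n1) n2) n3).lt_or_eq with h | h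
    · exact h
    · exfalso
      nlinarith
  have e : (A + B + C + D - Z - X - Y) * (A + B + C + D) =
      (B + C - X) * (A + D - X) + (C + A - Y) * (B + D - Y) + (A + B - Z) * (C + D - Z) := by
    nlinarith
  have p1 : 0 ≤ (B + C - X) * (A + D - X) := mul_nonneg (by linarith) (by linarith)
  have p2 : 0 ≤ (C + A - Y) * (B + D - Y) := mul_nonneg (by linarith) (by linarith)
  have p3 : 0 ≤ (A + B - Z) * (C + D - Z) := mul_nonneg (by linarith) (by linarith)
  have : (A + B + C + D - Z - X - Y) * (A + B + C + D) < 0 :=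
    mul_neg_of_neg_of_pos (by linarith) hS
  linarith

/-- Hlawka's inequality in the form used for signed sums. -/
theorem hlawka' (x y z : V) :
    2 * (‖x‖ + ‖y‖ + ‖z‖) ≤ ‖x + y + z‖ + ‖x + y - z‖ + ‖x - y + z‖ + ‖-x + y + z‖ := by
  have h := hlawka (x + y - z) (x - y + z) (-x + y + z)
  have e1 : x + y - z + (x - y + z) = (2 : ℝ) • x := by rw [two_smul]; abel
  have e2 : x - y + z + (-x + y + z) = (2 : ℝ) • z := by rw [two_smul]; abel
  have e3 : -x + y + z + (x + y - z) = (2 : ℝ) • y := by rw [two_smul]; abel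
  have e4 : x + y - z + (x - y + z) + (-x + y + z) = x + y + z := by abel
  rw [e4, e1, e2, e3, norm_smul, norm_smul, norm_smul] at h
  simp only [Real.norm_ofNat] at h
  linarith

/-- The real value of a sign. -/
def sg (u : ℤˣ) : ℝ := ((u : ℤ) : ℝ)

@[simp] theorem sg_mul (u v : ℤˣ) : sg (u * v) = sg u * sg v := by simp [sg]

@[simp] theorem sg_one : sg 1 = 1 := by simp [sg]

@[simp] theorem sg_neg (u : ℤˣ) : sg (-u) = -sg u := by simp [sg]

theorem sg_mul_self (u : ℤˣ) : sg u * sg u = 1 := by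
  rw [← sg_mul]; rw [Int.units_mul_self]; simp

theorem abs_sg (u : ℤˣ) : |sg u| = 1 := by
  rcases Int.units_eq_one_or u with rfl | rfl <;> simp

theorem sg_eq (u : ℤˣ) : sg u = 1 ∨ sg u = -1 := by
  rcases Int.units_eq_one_or u with rfl | rfl <;> simp

/-- The sum of the norms of all signed sums. -/
noncomputable def R {n : ℕ} (b : Fin n → V) : ℝ :=
  ∑ ε : Fin n → ℤˣ, ‖∑ i, sg (ε i) • b i‖

theorem sum_flip {n : ℕ} (δ : Fin n → ℤˣ) (f : (Fin n → ℤˣ) → ℝ) :
    ∑ ε, f (δ * ε) = ∑ ε, f ε :=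
  Equiv.sum_comp (Equiv.mulLeft δ) f

/-- The sign vector with one minus sign. -/
def fl {n : ℕ} (m : Fin n) : Fin n → ℤˣ := fun l => if l = m then -1 else 1

/-- For three different indices. -/
theorem three {n : ℕ} (b : Fin n → V) {i j k : Fin n} (hij : i ≠ j) (hik : i ≠ k) (hjk : j ≠ k) :
    (2 : ℝ) ^ n * (‖b i‖ + ‖b j‖ + ‖b k‖) ≤ 2 * R b := by
  classical
  -- the signed sum of three terms
  set U : (Fin n → ℤˣ) → V := fun ε => sg (ε i) • b i + sg (ε j) • b j + sg (ε k) • b k with hU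
  set T : Finset (Fin n) := {i, j, k} with hT
  have hTsum : ∀ ε : Fin n → ℤˣ, ∑ l ∈ T, sg (ε l) • b l = U ε := by
    intro ε
    rw [hT, Finset.sum_insert (by simp [hij, hik]), Finset.sum_insert (by simp [hjk]),
      Finset.sum_singleton, hU]
    simp only
    rw [add_assoc]
  -- step 1 : R ≥ sum of ‖U‖
  have step1 : ∑ ε, ‖U ε‖ ≤ R b := by
    set δ : Fin n → ℤˣ := fun l => if l ∈ T then 1 else -1 with hδ
    have e : R b = ∑ ε : Fin n → ℤˣ, ‖∑ l, sg ((δ * ε) l) • b l‖ :=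
      (sum_flip δ fun ε => ‖∑ l, sg (ε l) • b l‖).symm
    have h2 : 2 * ∑ ε, ‖U ε‖ ≤ R b + R b := by
      conv_rhs => rw [e]
      conv_rhs =>
        congr
        · skip
        · rw [← e]
      unfold R
      rw [← Finset.sum_add_distrib, Finset.mul_sum]
      refine Finset.sum_le_sum fun ε _ => ?_
      have hs1 : ∑ l, sg (ε l) • b l = U ε + ∑ l ∈ Tᶜ, sg (ε l) • b l := by
        rw [← hTsum, Finset.sum_add_sum_compl]
      have hs2 : ∑ l, sg ((δ * ε) l) • b l = U ε - ∑ l ∈ Tᶜ, sg (ε l) • b l := by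
        rw [← Finset.sum_add_sum_compl T, sub_eq_add_neg, ← Finset.sum_neg_distrib, ← hTsum]
        congr 1
        · refine Finset.sum_congr rfl fun l hl => ?_
          simp [hδ, hl]
        · refine Finset.sum_congr rfl fun l hl => ?_
          rw [Finset.mem_compl] at hl
          simp [hδ, hl]
      rw [hs1, hs2]
      set W := ∑ l ∈ Tᶜ, sg (ε l) • b l
      have e5 : (2 : ℝ) • U ε = (U ε - W) + (U ε + W) := by rw [two_smul]; abel
      have := norm_add_le (U ε - W) (U ε + W)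
      rw [← e5, norm_smul] at this
      simpa using this
    linarith
  -- step 2 : Hlawka
  have hn : ∀ (ε : Fin n → ℤˣ) (l : Fin n), ‖sg (ε l) • b l‖ = ‖b l‖ := by
    intro ε l
    rw [norm_smul, Real.norm_eq_abs, abs_sg, one_mul]
  have flip1 : ∀ m : Fin n, ∑ ε : Fin n → ℤˣ, ‖U (fl m * ε)‖ = ∑ ε, ‖U ε‖ :=
    fun m => sum_flip _ fun ε => ‖U ε‖
  have step2 : ∑ ε : Fin n → ℤˣ, 2 * (‖b i‖ + ‖b j‖ + ‖b k‖) ≤ 4 * ∑ ε, ‖U ε‖ := by
    have : 4 * ∑ ε, ‖U ε‖ = ∑ ε : Fin n → ℤˣ, (‖U ε‖ + ‖U (fl k * ε)‖ +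
        ‖U (fl j * ε)‖ + ‖U (fl i * ε)‖) := by
      rw [Finset.sum_add_distrib, Finset.sum_add_distrib, Finset.sum_add_distrib, flip1, flip1,
        flip1]
      ring
    rw [this]
    refine Finset.sum_le_sum fun ε _ => ?_
    have h := hlawka' (sg (ε i) • b i) (sg (ε j) • b j) (sg (ε k) • b k)
    rw [hn, hn, hn] at h
    refine h.trans (le_of_eq ?_)
    congr 1
    · congr 1
      · congr 1
        rw [hU]
        simp [fl, hik, hjk, sub_eq_add_neg]
      · rw [hU]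
        simp [fl, hij, hjk.symm, sub_eq_add_neg]
    · rw [hU]
      simp [fl, hij.symm, hik.symm]
  rw [Finset.sum_const, Finset.card_univ, Fintype.card_pi] at step2
  simp only [Fintype.card_units_int, Finset.prod_const, Finset.card_univ, Fintype.card_fin,
    nsmul_eq_mul, Nat.cast_pow, Nat.cast_ofNat] at step2
  linarith

/-- The averaged inequality. -/
theorem signs {n : ℕ} (hn : 3 ≤ n) (b : Fin n → V) :
    3 * (2 : ℝ) ^ n * ∑ i, ‖b i‖ ≤ 2 * n * R b := by
  have : NeZero n := ⟨by omega⟩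
  have h : ∀ i : Fin n, (2 : ℝ) ^ n * (‖b i‖ + ‖b (i + 1)‖ + ‖b (i + 2)‖) ≤ 2 * R b := by
    intro i
    have h1 : (1 : Fin n) ≠ 0 := by
      intro h
      have := congrArg Fin.val h
      rw [Fin.val_one', Nat.mod_eq_of_lt (by omega)] at this
      simp at this
    have h2 : (2 : Fin n) ≠ 0 := by
      intro h
      have := congrArg Fin.val h
      have h3 : (2 : Fin n).val = 2 % n := rfl
      rw [h3, Nat.mod_eq_of_lt (by omega)] at this
      simp at this
    have h12 : (1 : Fin n) ≠ 2 := by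
      intro h
      have := congrArg Fin.val h
      have h3 : (2 : Fin n).val = 2 % n := rfl
      rw [h3, Fin.val_one', Nat.mod_eq_of_lt (by omega), Nat.mod_eq_of_lt (by omega)] at this
      omega
    apply three
    · intro h; exact h1 (by simpa using h.symm)
    · intro h; exact h2 (by simpa using h.symm)
    · intro h; exact h12 (by simpa using h)
  have hsum := Finset.sum_le_sum fun i (_ : i ∈ Finset.univ) => h i
  rw [Finset.sum_const, Finset.card_univ, Fintype.card_fin, nsmul_eq_mul, ← Finset.mul_sum,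
    Finset.sum_add_distrib, Finset.sum_add_distrib] at hsum
  have e1 : ∑ i : Fin n, ‖b (i + 1)‖ = ∑ i, ‖b i‖ := Equiv.sum_comp (Equiv.addRight 1) fun i => ‖b i‖
  have e2 : ∑ i : Fin n, ‖b (i + 2)‖ = ∑ i, ‖b i‖ := Equiv.sum_comp (Equiv.addRight 2) fun i => ‖b i‖
  rw [e1, e2] at hsum
  linarith

end Pool.Agent.Helper88K9.AS
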