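import Pool.Agent.Helper88K9.AS.Facets

/-!
# Surface areas of affine images of cross-polytopes and truncated cross-polytopes
-/

set_option autoImplicit false

open MeasureTheory Set Module
open scoped ENNReal RealInnerProductSpace Pointwise

namespace Pool.Agent.Helper88K9.AS

variable {n : ℕ}

/-- The absolute value of the determinant. -/
noncomputable def de (T : E n ≃ₗ[ℝ] E n) : ℝ := |LinearMap.det (T : E n →ₗ[ℝ] E n)|

/-- The images of the basis vectors under the inverse transpose. -/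
noncomputable def bb (T : E n ≃ₗ[ℝ] E n) (i : Fin n) : E n :=
  LinearMap.adjoint (T.symm : E n →ₗ[ℝ] E n) (EuclideanSpace.single i (1 : ℝ))

theorem nv_eq (ε : Fin n → ℤˣ) :
    nv ε = ∑ i, sg (ε i) • EuclideanSpace.single i (1 : ℝ) := by
  ext j
  simp [Pi.single_apply]

theorem adj_nv (T : E n ≃ₗ[ℝ] E n) (ε : Fin n → ℤˣ) :
    LinearMap.adjoint (T.symm : E n →ₗ[ℝ] E n) (nv ε) = ∑ i, sg (ε i) • bb T i := by
  rw [nv_eq, map_sum]
  refine Finset.sum_congr rfl fun i _ => ?_
  rw [map_smul]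
  rfl

theorem area_T_Fo (hn : 1 ≤ n) (T : E n ≃ₗ[ℝ] E n) (ε : Fin n → ℤˣ) :
    μHE[n - 1] (T '' Fo ε) =
      ENNReal.ofReal (de T * n * ‖∑ i, sg (ε i) • bb T i‖) * om n := by
  have hn0 : (0 : ℝ) < n := by exact_mod_cast hn
  rw [area_image hn (measurableSet_Fo ε) (Fo_inner ε) one_pos (nv_ne_zero hn ε), area_Fo hn, al,
    adj_nv, norm_nv, ← mul_assoc, ← ENNReal.ofReal_mul (by positivity)]
  congr 2
  unfold de
  field_simp

theorem al_lt_top (n : ℕ) : al n < ∞ := ENNReal.mul_lt_top ENNReal.ofReal_lt_top (om_lt_top n)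

theorem area_G_le (hn : 1 ≤ n) {s r : ℝ} (hr : 0 < r) (hs : 2 * r ≤ s) (ε : Fin n → ℤˣ) :
    μHE[n - 1] (G s r ε) ≤ ENNReal.ofReal (s ^ (n - 1) - n * r ^ (n - 1)) * al n := by
  have h := area_G hn hr hs ε
  have hfin : (n : ℝ≥0∞) * (ENNReal.ofReal (r ^ (n - 1)) * al n) ≠ ∞ :=
    ENNReal.mul_ne_top (ENNReal.natCast_ne_top n)
      (ENNReal.mul_ne_top ENNReal.ofReal_ne_top (al_lt_top n).ne)
  have h1 := ENNReal.le_sub_of_add_le_right hfin h
  refine h1.trans (le_of_eq ?_)
  rw [ENNReal.ofReal_sub _ (by positivity), ENNReal.ofReal_mul (by positivity),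
    ENNReal.ofReal_natCast, ENNReal.sub_mul (fun _ _ => (al_lt_top n).ne), mul_assoc]

theorem G_inner (s r : ℝ) (ε : Fin n → ℤˣ) : ∀ x ∈ G s r ε, ⟪nv ε, x⟫ = s := fun x hx => by
  rw [inner_nv]; exact hx.2

theorem area_T_G (hn : 1 ≤ n) {s r : ℝ} (hr : 0 < r) (hs : 2 * r ≤ s) (T : E n ≃ₗ[ℝ] E n)
    (hp : 0 ≤ s ^ (n - 1) - n * r ^ (n - 1)) (ε : Fin n → ℤˣ) :
    μHE[n - 1] (T '' G s r ε) ≤
      ENNReal.ofReal (de T * n * ((s ^ (n - 1) - n * r ^ (n - 1)) *
        ‖∑ i, sg (ε i) • bb T i‖)) * om n := by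
  have hn0 : (0 : ℝ) < n := by exact_mod_cast hn
  rw [area_image hn (measurableSet_G s r ε) (G_inner s r ε) (by linarith) (nv_ne_zero hn ε),
    adj_nv, norm_nv]
  refine (mul_le_mul' le_rfl (area_G_le hn hr hs ε)).trans (le_of_eq ?_)
  rw [al, ← mul_assoc, ← mul_assoc, ← ENNReal.ofReal_mul (by positivity),
    ← ENNReal.ofReal_mul (by positivity)]
  congr 2
  unfold de
  field_simp

theorem area_T_H (hn : 1 ≤ n) {s r : ℝ} (hr : 0 < r) (hs : 2 * r ≤ s) (T : E n ≃ₗ[ℝ] E n)
    (i : Fin n) :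
    2 * μHE[n - 1] (T '' H s r i) ≤
      ENNReal.ofReal (de T * n * (2 ^ n * r ^ (n - 1) * ‖bb T i‖)) * om n := by
  have hn0 : (0 : ℝ) < n := by exact_mod_cast hn
  have hv : (EuclideanSpace.single i (1 : ℝ) : E n) ≠ 0 := by
    intro h
    have := congrArg norm h
    simp at this
  rw [area_image (v := EuclideanSpace.single i (1 : ℝ)) (c := s - r) hn (measurableSet_H s r i)
    (fun x hx => by rw [inner_single']; exact hx.1) (by linarith) hv]
  rw [PiLp.norm_single, norm_one, div_one]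
  change 2 * (ENNReal.ofReal (de T * ‖bb T i‖) * _) ≤ _
  have hd : 0 ≤ de T := abs_nonneg _
  calc 2 * (ENNReal.ofReal (de T * ‖bb T i‖) * μHE[n - 1] (H s r i))
      = ENNReal.ofReal (de T * ‖bb T i‖) * (2 * μHE[n - 1] (H s r i)) := by ring
    _ ≤ ENNReal.ofReal (de T * ‖bb T i‖) *
        (ENNReal.ofReal (r ^ (n - 1)) * (ENNReal.ofReal n * (2 ^ n * om n))) :=
        mul_le_mul' le_rfl (area_H_le hn hr hs i)
    _ = _ := by
      have h2 : (2 : ℝ≥0∞) ^ n = ENNReal.ofReal (2 ^ n) := by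
        rw [ENNReal.ofReal_pow (by norm_num)]; simp
      rw [h2, ← mul_assoc, ← mul_assoc, ← mul_assoc, ← ENNReal.ofReal_mul (by positivity),
        ← ENNReal.ofReal_mul (by positivity), ← ENNReal.ofReal_mul (by positivity)]
      congr 2
      ring

/-- Lower bound for the surface area of a linear image of the cross-polytope. -/
theorem surf_cross (hn : 1 ≤ n) (T : E n ≃ₗ[ℝ] E n) :
    ENNReal.ofReal (de T * n * R (bb T)) * om n ≤ μHE[n - 1] (frontier (T '' cross n 1)) := by
  have hd : 0 ≤ de T := abs_nonneg _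
  have h1 : ENNReal.ofReal (de T * n * R (bb T)) * om n = ∑ ε : Fin n → ℤˣ,
      μHE[n - 1] (T '' Fo ε) := by
    simp_rw [area_T_Fo hn T]
    rw [← Finset.sum_mul, ← ENNReal.ofReal_sum_of_nonneg (fun ε _ => by positivity),
      ← Finset.mul_sum]
    rfl
  have hmeas : ∀ ε : Fin n → ℤˣ, MeasurableSet (T '' Fo ε) := fun ε =>
    (T.toContinuousLinearEquiv.toHomeomorph.measurableEmbedding.measurableSet_image).2
      (measurableSet_Fo ε)
  have hdisj : Pairwise (Function.onFun Disjoint fun ε : Fin n → ℤˣ => (T '' Fo ε)) := by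
    intro ε ε' hne
    rw [Function.onFun]
    rw [Set.disjoint_image_iff T.injective, Set.disjoint_left]
    rintro x ⟨h2, -⟩ ⟨h3, -⟩
    apply hne
    funext i
    have h4 := h2 i
    have h5 := h3 i
    rcases Int.units_eq_one_or (ε i) with h6 | h6 <;> rcases Int.units_eq_one_or (ε' i) with h7 | h7
    · rw [h6, h7]
    · rw [h6] at h4; rw [h7] at h5; simp at h4 h5; linarith
    · rw [h6] at h4; rw [h7] at h5; simp at h4 h5; linarith
    · rw [h6, h7]
  rw [h1, ← tsum_fintype (L := .unconditional _), ← measure_iUnion hdisj hmeas]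
  apply measure_mono
  refine iUnion_subset fun ε => ?_
  have hfr : frontier (T '' cross n 1) = T '' frontier (cross n 1) :=
    (T.toContinuousLinearEquiv.toHomeomorph.image_frontier _).symm
  rw [hfr]
  refine image_mono ?_
  rintro x ⟨h2, h3⟩
  refine mem_frontier_cross one_pos ?_
  rw [← h3]
  exact Finset.sum_congr rfl fun i _ => abs_eq_sg_mul _ (h2 i).le

theorem frontier_trunc {s r : ℝ} :
    frontier (trunc n s r) ⊆ (⋃ ε : Fin n → ℤˣ, G s r ε) ∪ ⋃ i : Fin n, (H s r i ∪ -H s r i) := by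
  intro x hx
  rw [frontier, (isClosed_trunc s r).closure_eq] at hx
  obtain ⟨⟨h1, h2⟩, h3⟩ := hx
  by_cases h4 : N1 x = s
  · left
    obtain ⟨ε, hε⟩ := exists_sign x
    rw [mem_iUnion]
    refine ⟨ε, fun i => ?_, ?_⟩
    · rw [hε]
      exact ⟨abs_nonneg _, h2 i⟩
    · simp_rw [hε]
      exact h4
  · right
    by_contra hcon
    apply h3
    apply open_sub_trunc s r
    refine ⟨lt_of_le_of_ne h1 h4, ?_⟩
    rw [mem_iInter]
    intro i
    refine lt_of_le_of_ne (h2 i) fun h5 => hcon ?_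
    rw [mem_iUnion]
    refine ⟨i, ?_⟩
    rcases abs_choice (x i) with h6 | h6
    · left
      exact ⟨by rw [← h5, h6], h1⟩
    · right
      rw [Set.mem_neg]
      refine ⟨?_, by rw [N1_neg]; exact h1⟩
      rw [← h5, h6]
      rfl

/-- Upper bound for the surface area of a linear image of the truncated cross-polytope. -/
theorem surf_trunc (hn : 1 ≤ n) {s r : ℝ} (hr : 0 < r) (hs : 2 * r ≤ s) (T : E n ≃ₗ[ℝ] E n)
    (hp : 0 ≤ s ^ (n - 1) - n * r ^ (n - 1)) :
    μHE[n - 1] (frontier (T '' trunc n s r)) ≤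
      ENNReal.ofReal (de T * n * ((s ^ (n - 1) - n * r ^ (n - 1)) * R (bb T) +
        2 ^ n * r ^ (n - 1) * ∑ i, ‖bb T i‖)) * om n := by
  have hd : 0 ≤ de T := abs_nonneg _
  have hfr : frontier (T '' trunc n s r) = T '' frontier (trunc n s r) :=
    (T.toContinuousLinearEquiv.toHomeomorph.image_frontier _).symm
  rw [hfr]
  have h1 : T '' frontier (trunc n s r) ⊆
      (⋃ ε : Fin n → ℤˣ, T '' G s r ε) ∪ ⋃ i : Fin n, (T '' H s r i ∪ -(T '' H s r i)) := by
    refine (image_mono frontier_trunc).trans ?_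
    rw [image_union, image_iUnion, image_iUnion]
    refine union_subset_union subset_rfl (iUnion_mono fun i => ?_)
    rw [image_union]
    refine union_subset_union subset_rfl ?_
    rintro _ ⟨x, hx, rfl⟩
    rw [Set.mem_neg] at hx ⊢
    exact ⟨-x, hx, by rw [map_neg]⟩
  have hneg : ∀ i, μHE[n - 1] (-(T '' H s r i)) = μHE[n - 1] (T '' H s r i) := by
    intro i
    rw [← Set.image_neg_eq_neg]
    exact (LinearIsometryEquiv.neg ℝ : E n ≃ₗᵢ[ℝ] E n).isometry.euclideanHausdorffMeasure_image _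
  calc μHE[n - 1] (T '' frontier (trunc n s r))
      ≤ μHE[n - 1] ((⋃ ε : Fin n → ℤˣ, T '' G s r ε) ∪
          ⋃ i : Fin n, (T '' H s r i ∪ -(T '' H s r i))) := measure_mono h1
    _ ≤ μHE[n - 1] (⋃ ε : Fin n → ℤˣ, T '' G s r ε) +
          μHE[n - 1] (⋃ i : Fin n, (T '' H s r i ∪ -(T '' H s r i))) := measure_union_le _ _
    _ ≤ ∑ ε : Fin n → ℤˣ, μHE[n - 1] (T '' G s r ε) +
          ∑ i : Fin n, μHE[n - 1] (T '' H s r i ∪ -(T '' H s r i)) :=
        add_le_add (measure_iUnion_fintype_le _ _) (measure_iUnion_fintype_le _ _)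
    _ ≤ ∑ ε : Fin n → ℤˣ, μHE[n - 1] (T '' G s r ε) +
          ∑ i : Fin n, 2 * μHE[n - 1] (T '' H s r i) := by
        refine add_le_add le_rfl (Finset.sum_le_sum fun i _ => ?_)
        refine (measure_union_le _ _).trans (le_of_eq ?_)
        rw [hneg, two_mul]
    _ ≤ ∑ ε : Fin n → ℤˣ, ENNReal.ofReal (de T * n * ((s ^ (n - 1) - n * r ^ (n - 1)) *
          ‖∑ i, sg (ε i) • bb T i‖)) * om n +
          ∑ i : Fin n, ENNReal.ofReal (de T * n * (2 ^ n * r ^ (n - 1) * ‖bb T i‖)) * om n :=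
        add_le_add (Finset.sum_le_sum fun ε _ => area_T_G hn hr hs T hp ε)
          (Finset.sum_le_sum fun i _ => area_T_H hn hr hs T i)
    _ = _ := by
        have hR : 0 ≤ R (bb T) := Finset.sum_nonneg fun _ _ => norm_nonneg _
        rw [← Finset.sum_mul, ← Finset.sum_mul, ← add_mul,
          ← ENNReal.ofReal_sum_of_nonneg (fun ε _ => by positivity),
          ← ENNReal.ofReal_sum_of_nonneg (fun i _ => by positivity),
          ← ENNReal.ofReal_add (Finset.sum_nonneg fun ε _ => by positivity)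
            (Finset.sum_nonneg fun ε _ => by positivity), ← Finset.mul_sum, ← Finset.mul_sum,
          ← Finset.mul_sum, ← Finset.mul_sum, ← mul_add]
        rfl

/-- Comparison of the surface areas of all linear images. -/
theorem surf_le (hn : 3 ≤ n) {s r : ℝ} (hr : 0 < r) (hs : 2 * r ≤ s) (T : E n ≃ₗ[ℝ] E n)
    (hp : s ^ (n - 1) = 1 + n / 3 * r ^ (n - 1)) (hp' : n * r ^ (n - 1) ≤ 1) :
    μHE[n - 1] (frontier (T '' trunc n s r)) ≤ μHE[n - 1] (frontier (T '' cross n 1)) := by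
  have hd : 0 ≤ de T := abs_nonneg _
  have hn0 : (0 : ℝ) < n := by exact_mod_cast (by omega : 0 < n)
  have hr1 : 0 < r ^ (n - 1) := by positivity
  refine (surf_trunc (by omega) hr hs T ?_).trans (le_trans ?_ (surf_cross (by omega) T))
  · rw [hp]
    nlinarith
  · refine mul_le_mul' (ENNReal.ofReal_le_ofReal ?_) le_rfl
    refine mul_le_mul_of_nonneg_left ?_ (by positivity)
    have h := signs hn (bb T)
    rw [hp]
    nlinarith

theorem volume_cap {s r : ℝ} (hr : 0 < r) (hs : r ≤ s) (i : Fin n) :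
    volume ({x : E n | s - r < x i} ∩ cross n s) ≤ ENNReal.ofReal (r ^ n) * volume (half i) := by
  have h0 : volume (r • half i) = ENNReal.ofReal (r ^ n) * volume (half i) := by
    rw [Measure.addHaar_smul_of_nonneg _ hr.le, finrank_euclideanSpace_fin]
  rw [← h0, ← measure_vadd volume (EuclideanSpace.single i (s - r)) (r • half i)]
  apply measure_mono
  rintro x ⟨hx1, hx2⟩
  change s - r < x i at hx1
  change N1 x ≤ s at hx2
  rw [mem_vadd_set]
  set y : E n := r⁻¹ • (x - EuclideanSpace.single i (s - r)) with hy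
  have hval : ∀ j, y j = if j = i then r⁻¹ * (x i - (s - r)) else r⁻¹ * x j := by
    intro j
    rw [hy]
    simp only [PiLp.smul_apply, PiLp.sub_apply, smul_eq_mul, PiLp.single_apply]
    split_ifs with h
    · subst h
      rfl
    · ring
  refine ⟨r • y, smul_mem_smul_set ⟨?_, ?_⟩, ?_⟩
  · rw [hval, if_pos rfl]
    have : 0 < x i - (s - r) := by linarith
    positivity
  · have hpos : 0 < x i - (s - r) := by linarith
    have h3 : N1 y = r⁻¹ * (N1 x - (s - r)) := by
      unfold N1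
      rw [← Finset.add_sum_erase _ _ (Finset.mem_univ i),
        ← Finset.add_sum_erase Finset.univ (fun j => |x j|) (Finset.mem_univ i)]
      rw [hval, if_pos rfl, abs_of_pos (by positivity : 0 < r⁻¹ * (x i - (s - r))),
        abs_of_pos (by linarith : 0 < x i)]
      have : ∑ j ∈ Finset.univ.erase i, |y j| = r⁻¹ * ∑ j ∈ Finset.univ.erase i, |x j| := by
        rw [Finset.mul_sum]
        refine Finset.sum_congr rfl fun j hj => ?_
        rw [hval, if_neg (Finset.ne_of_mem_erase hj), abs_mul, abs_of_pos (by positivity)]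
      rw [this]
      ring
    rw [h3]
    have : r⁻¹ * (N1 x - (s - r)) ≤ r⁻¹ * r := by
      gcongr
      linarith
    rw [inv_mul_cancel₀ hr.ne'] at this
    linarith
  · rw [hy, smul_smul, mul_inv_cancel₀ hr.ne', one_smul, vadd_eq_add]
    abel

theorem volume_cross_smul {s : ℝ} (hs : 0 < s) :
    volume (cross n s) = ENNReal.ofReal (s ^ n) * volume (cross n 1) := by
  have : cross n s = s • cross n 1 := by
    ext x
    rw [mem_smul_set_iff_inv_smul_mem₀ hs.ne']
    simp only [cross, mem_ofPred_eq, N1_smul]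
    rw [abs_of_pos (by positivity : 0 < s⁻¹), inv_mul_le_iff₀ hs, mul_one]
  rw [this, Measure.addHaar_smul_of_nonneg _ hs.le, finrank_euclideanSpace_fin]

theorem volume_trunc {s r : ℝ} (hr : 0 < r) (hs : r ≤ s) :
    ENNReal.ofReal (s ^ n) * volume (cross n 1) ≤
      volume (trunc n s r) + ENNReal.ofReal (n * r ^ n) * volume (cross n 1) := by
  have hs0 : 0 < s := by linarith
  rw [← volume_cross_smul hs0]
  have h1 : cross n s ⊆ trunc n s r ∪ ⋃ i : Fin n, (({x : E n | s - r < x i} ∩ cross n s) ∪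
      -({x : E n | s - r < x i} ∩ cross n s)) := by
    intro x hx
    by_cases h : ∀ i, |x i| ≤ s - r
    · left; exact ⟨hx, h⟩
    · right
      push Not at h
      obtain ⟨i, hi⟩ := h
      rw [mem_iUnion]
      refine ⟨i, ?_⟩
      rcases abs_choice (x i) with h6 | h6
      · left
        exact ⟨by rw [h6] at hi; exact hi, hx⟩
      · right
        rw [Set.mem_neg]
        refine ⟨by rw [h6] at hi; exact hi, ?_⟩
        change N1 (-x) ≤ s
        rw [N1_neg]; exact hx
  have hneg : ∀ S : Set (E n), volume (-S) = volume S := fun S => by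
    rw [Measure.measure_neg]
  calc volume (cross n s)
      ≤ volume (trunc n s r) + ∑ i : Fin n, volume (({x : E n | s - r < x i} ∩ cross n s) ∪
        -({x : E n | s - r < x i} ∩ cross n s)) :=
        (measure_mono h1).trans ((measure_union_le _ _).trans
          (add_le_add le_rfl (measure_iUnion_fintype_le _ _)))
    _ ≤ volume (trunc n s r) + ∑ _i : Fin n, ENNReal.ofReal (r ^ n) * volume (cross n 1) := by
        refine add_le_add le_rfl (Finset.sum_le_sum fun i _ => ?_)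
        refine (measure_union_le _ _).trans ?_
        rw [hneg, ← two_mul]
        calc 2 * volume ({x : E n | s - r < x i} ∩ cross n s)
            ≤ 2 * (ENNReal.ofReal (r ^ n) * volume (half i)) :=
              mul_le_mul' le_rfl (volume_cap hr hs i)
          _ = ENNReal.ofReal (r ^ n) * (2 * volume (half i)) := by ring
          _ ≤ _ := mul_le_mul' le_rfl (volume_half i)
    _ = _ := by
        rw [Finset.sum_const, Finset.card_univ, Fintype.card_fin, nsmul_eq_mul, ← mul_assoc,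
          ENNReal.ofReal_mul (by positivity), ENNReal.ofReal_natCast]

theorem volume_lt {s r : ℝ} (hr : 0 < r) (hs : r ≤ s) (h : 1 + n * r ^ n < s ^ n) :
    volume (cross n 1) < volume (trunc n s r) := by
  have hs0 : 0 < s := by linarith
  have h1 := volume_trunc (n := n) hr hs
  set Λ := volume (cross n 1) with hΛ
  have hΛ0 : 0 < Λ := volume_cross_pos n
  have hΛt : Λ < ∞ := (isCompact_cross (n := n) 1).measure_lt_top
  have h2 : ENNReal.ofReal (1 + n * r ^ n) * Λ < ENNReal.ofReal (s ^ n) * Λ := by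
    rw [ENNReal.mul_lt_mul_iff_left hΛ0.ne' hΛt.ne]
    exact (ENNReal.ofReal_lt_ofReal_iff (by positivity)).2 h
  rw [ENNReal.ofReal_add zero_le_one (by positivity), ENNReal.ofReal_one, add_mul, one_mul] at h2
  have h3 := h2.trans_le h1
  exact lt_of_add_lt_add_right h3

/-- The parameter `s`. -/
theorem exists_s (hn : 3 ≤ n) : ∃ s : ℝ, 1 ≤ s ∧
    s ^ (n - 1) = 1 + n / 3 * (1 / 4 : ℝ) ^ (n - 1) ∧ 1 + n * (1 / 4 : ℝ) ^ n < s ^ n ∧
    n * (1 / 4 : ℝ) ^ (n - 1) ≤ 1 := by
  have hn0 : (0 : ℝ) < n := by exact_mod_cast (by omega : 0 < n)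
  set c : ℝ := 1 + n / 3 * (1 / 4 : ℝ) ^ (n - 1) with hc
  have hc1 : 1 ≤ c := by
    have : 0 < n / 3 * (1 / 4 : ℝ) ^ (n - 1) := by positivity
    linarith
  have hm : n - 1 ≠ 0 := by omega
  refine ⟨c ^ (((n - 1 : ℕ) : ℝ)⁻¹), ?_, ?_, ?_, ?_⟩
  · exact Real.one_le_rpow hc1 (by positivity)
  · exact Real.rpow_inv_natCast_pow (by linarith) hm
  · have h1 : 1 ≤ c ^ (((n - 1 : ℕ) : ℝ)⁻¹) := Real.one_le_rpow hc1 (by positivity)
    have h2 : (c ^ (((n - 1 : ℕ) : ℝ)⁻¹)) ^ (n - 1) = c := Real.rpow_inv_natCast_pow (by linarith) hm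
    have h3 : (c ^ (((n - 1 : ℕ) : ℝ)⁻¹)) ^ n = c * c ^ (((n - 1 : ℕ) : ℝ)⁻¹) := by
      generalize c ^ (((n - 1 : ℕ) : ℝ)⁻¹) = z at h2 ⊢
      rw [← h2, ← pow_succ]
      congr 1
      omega
    rw [h3]
    have h4 : (1 / 4 : ℝ) ^ n = (1 / 4 : ℝ) ^ (n - 1) * (1 / 4) := by
      conv_lhs => rw [show n = n - 1 + 1 by omega, pow_succ]
    rw [h4]
    have h5 : 0 < (n : ℝ) * (1 / 4 : ℝ) ^ (n - 1) := by positivity
    calc 1 + n * ((1 / 4 : ℝ) ^ (n - 1) * (1 / 4)) < c := by rw [hc]; nlinarith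
      _ = c * 1 := (mul_one c).symm
      _ ≤ _ := by gcongr
  · obtain ⟨m, rfl⟩ : ∃ m, n = m + 1 := ⟨n - 1, by omega⟩
    rw [Nat.add_sub_cancel]
    have h1 : ((m + 1 : ℕ) : ℝ) ≤ 4 ^ m := by
      have : m + 1 ≤ 4 ^ m := by
        have h2 : m < 4 ^ m := Nat.lt_pow_self (by norm_num)
        omega
      exact_mod_cast this
    rw [one_div, inv_pow]
    rw [mul_inv_le_iff₀ (by positivity), one_mul]
    exact h1

/-- Affine images. -/
theorem frontier_affine (A : E n ≃ᵃ[ℝ] E n) (C : Set (E n)) :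
    μHE[n - 1] (frontier (A '' C)) = μHE[n - 1] (frontier (A.linear '' C)) := by
  have h : A '' C = (IsometryEquiv.addLeft (A 0)) '' (A.linear '' C) := by
    rw [image_image]
    refine image_congr fun x _ => ?_
    have := A.map_vadd 0 x
    rw [vadd_eq_add, vadd_eq_add, add_zero] at this
    rw [this, IsometryEquiv.addLeft_apply, add_comm]
  rw [h]
  have h2 := (IsometryEquiv.addLeft (A 0)).toHomeomorph.image_frontier (A.linear '' C)
  rw [IsometryEquiv.coe_toHomeomorph] at h2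
  rw [← h2]
  exact (IsometryEquiv.addLeft (A 0)).isometry.euclideanHausdorffMeasure_image _

end Pool.Agent.Helper88K9.AS
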